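import Pool.Agent.helper45.PV.SpecG

/-!
# Row pvg:LPM: an idempotent matrix over the mapping cone that comes from a loop
-/

set_option autoImplicit false

open scoped Matrix Topology

namespace Pool.Agent.PV

open Pool.Agent.CZ

/-- every point of the circle is the image of a point of the unit interval -/
theorem LPM_surj (t : UnitAddCircle) : ∃ s : unitInterval, ((s : ℝ) : UnitAddCircle) = t := by
  have : Fact ((0 : ℝ) < 1) := ⟨zero_lt_one⟩
  have h := (AddCircle.equivIco (1 : ℝ) 0 t).2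
  have h0 : (0 : ℝ) ≤ (AddCircle.equivIco (1 : ℝ) 0 t : ℝ) := h.1
  have h1 : (AddCircle.equivIco (1 : ℝ) 0 t : ℝ) ≤ 1 := by
    have := h.2
    linarith
  exact ⟨⟨(AddCircle.equivIco (1 : ℝ) 0 t : ℝ), h0, h1⟩, AddCircle.coe_equivIco⟩

/-- the inclusion of the loops into the mapping cone is injective -/
theorem LPM_inj {C D : Type} [NormedRing C] [NormedAlgebra ℂ C] [NormedRing D] [NormedAlgebra ℂ D]
    (φ : C →ₐ[ℂ] D) (χ : D →ₐ[ℂ] ℂ) (x y : L1 D) (h : jm φ χ x = jm φ χ y) : x = y := by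
  refine extL1 x y fun t => ?_
  obtain ⟨s, rfl⟩ := LPM_surj t
  rw [← pM_jm φ χ s x, ← pM_jm φ χ s y, h]

/-- one entry -/
theorem LPM_entry (hLOP : LOP_stmt) {C D : Type} [NormedRing C] [NormedAlgebra ℂ C] [NormedRing D]
    [NormedAlgebra ℂ D] (φ : C →ₐ[ℂ] D) (χ : D →ₐ[ℂ] ℂ) (e : MC φ) (c : ℂ)
    (h0 : pM φ 0 e = algebraMap ℂ D c) (h1 : pM φ 1 e = algebraMap ℂ D c)
    (hg : gM φ e = algebraMap ℂ C c) :
    ∃ f : L1 D, jm φ χ f = e ∧ eL χ f = c ∧ pL D 0 f = algebraMap ℂ D c := by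
  have h0' : (vM φ e).1 0 = algebraMap ℂ D c := h0
  have h1' : (vM φ e).1 1 = algebraMap ℂ D c := h1
  obtain ⟨q, hq⟩ := hLOP D (vM φ e).1 (h0'.trans h1'.symm)
  have hq0 : q 0 = algebraMap ℂ D c := by
    rw [← h0', ← hq 0]
    rfl
  obtain ⟨f, hf⟩ := vL_ex q c hq0
  have hp0 : pL D 0 f = algebraMap ℂ D c := by
    change vL D f 0 = algebraMap ℂ D c
    rw [hf]
    exact hq0
  have he : eL χ f = c := by
    change χ (pL D 0 f) = c
    rw [hp0, χ.commutes]
    rfl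
  refine ⟨f, extM1 φ _ _ (fun s => ?_) ?_, he, hp0⟩
  · rw [pM_jm]
    change vL D f ((s : ℝ) : UnitAddCircle) = (vM φ e).1 s
    rw [hf]
    exact hq s
  · rw [gM_jm, he, hg]

/-- Row pvg:LPM -/
theorem LPM (hLOP : LOP_stmt) : LPM_stmt := by
  intro C D _ _ _ _ φ χ ι _ _ E Q h0 h1 hg
  have hex : ∀ i j, ∃ f : L1 D, jm φ χ f = E i j ∧ eL χ f = Q i j ∧
      pL D 0 f = algebraMap ℂ D (Q i j) := fun i j =>
    LPM_entry hLOP φ χ (E i j) (Q i j) (congrFun (congrFun h0 i) j) (congrFun (congrFun h1 i) j)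
      (congrFun (congrFun hg i) j)
  choose F hF1 hF2 hF3 using hex
  have hFE : (Matrix.of F).map (jm φ χ) = E := by
    ext i j
    exact hF1 i j
  refine ⟨Matrix.of F, hFE, ?_, ?_, fun hE => ?_⟩
  · ext i j
    exact hF2 i j
  · ext i j
    exact hF3 i j
  · have hmm : (Matrix.of F * Matrix.of F).map (jm φ χ) = (Matrix.of F).map (jm φ χ) := by
      rw [Matrix.map_mul, hFE, hE]
    ext i j
    exact LPM_inj φ χ _ _ (congrFun (congrFun hmm i) j)

end Pool.Agent.PV
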