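import Pool.Agent.helper53.PV.SpecF

set_option autoImplicit false

open scoped Topology
open MeasureTheory Filter

namespace Pool.Agent.PV

open Pool.Agent.CZ

theorem FEA (hFPA : FPA_stmt) (hFSQ : FSQ_stmt) (hFDS : FDS_stmt) (hFTZ : FTZ_stmt) :
    FEA_stmt := by
  intro X₀ Y _ _ _ _ _ _ _ _ α₀ hα x₀
  obtain ⟨x, hinj, hx, horb⟩ := hFSQ X₀ α₀ hα x₀
  have : Nonempty Y := PathConnectedSpace.nonempty
  obtain ⟨y, hy⟩ := hFDS Y
  obtain ⟨γ, hγ⟩ := hFPA Y y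
  have hne : ∀ j, x j ≠ x₀ := fun j h => horb j 0 (by rw [zpow_zero]; exact h.symm)
  obtain ⟨θ, hθ, hθx⟩ := hFTZ X₀ x₀ x hinj hx hne
  refine ⟨fun z => γ (θ z), ⟨γ.continuous.comp_continuousOn hθ, ?_⟩⟩
  intro y' U hU V hV
  obtain ⟨N, hN⟩ := Filter.eventually_atTop.1 (hx hU)
  obtain ⟨j, hj, hjV⟩ := hy y' V hV N
  exact ⟨x j, hN j hj, horb j, by
    show γ (θ (x j)) ∈ V
    rw [hθx, hγ]
    exact hjV⟩

end Pool.Agent.PV
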