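import Pool.Agent.helper53.PV.SpecF

set_option autoImplicit false

open scoped Topology
open MeasureTheory Filter

namespace Pool.Agent.PV

open Pool.Agent.CZ

theorem FNU_pow {X : Type} [TopologicalSpace X] (α : X ≃ₜ X) (φ : InvSt α) (h : C(X, ℝ)) (i : ℕ) :
    φ.φ (h.comp ((α ^ i : X ≃ₜ X) : C(X, X))) = φ.φ h := by
  induction i with
  | zero =>
    have e : h.comp ((α ^ 0 : X ≃ₜ X) : C(X, X)) = h := by
      ext z
      rfl
    rw [e]
  | succ i ih =>
    have e : h.comp ((α ^ (i + 1) : X ≃ₜ X) : C(X, X)) =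
        (h.comp ((α ^ i : X ≃ₜ X) : C(X, X))).comp (α : C(X, X)) := by
      ext z
      show h ((α ^ (i + 1)) z) = h ((α ^ i) (α z))
      rw [pow_succ]
      rfl
    rw [e, φ.inv, ih]

theorem FNU_add {X : Type} [TopologicalSpace X] (α : X ≃ₜ X) (i d : ℕ) (z : X) :
    (α ^ (d + i)) z = (α ^ d) ((α ^ i) z) := by
  rw [pow_add]
  rfl

theorem FNU : FNU_stmt := by
  intro X _ _ _ α x hx ε hε
  classical
  obtain ⟨N, hN⟩ := exists_nat_gt (1 / ε)
  have hN0 : 0 < (N : ℝ) := lt_trans (by positivity) hN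
  have hN1 : 1 < ε * N := by
    rw [div_lt_iff₀ hε] at hN
    linarith
  have hx' : ∀ n : ℕ, n ≠ 0 → (α ^ n) x ≠ x := by
    intro n hn h
    apply hx (n : ℤ) (by exact_mod_cast hn)
    rw [zpow_natCast]
    exact h
  obtain ⟨f, hf2, hf1⟩ := (((Finset.range N).image fun i => (α ^ i) x).finite_toSet).t2_separation
  have hU : (⋂ i ∈ Finset.range N, (α ^ i) ⁻¹' (f ((α ^ i) x))) ∈ 𝓝 x := by
    rw [Filter.biInter_finset_mem]
    intro i hi
    have h := hf2 ((α ^ i) x)
    exact ((h.2.preimage (α ^ i).continuous).mem_nhds h.1)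
  set U := ⋂ i ∈ Finset.range N, (α ^ i) ⁻¹' (f ((α ^ i) x)) with hUdef
  have hUo : IsOpen U := by
    rw [hUdef]
    refine isOpen_biInter_finset fun i hi => ?_
    exact (hf2 ((α ^ i) x)).2.preimage (α ^ i).continuous
  obtain ⟨t, ht, htc, htU⟩ := exists_mem_nhds_isClosed_subset hU
  obtain ⟨h, h0, h1, h2⟩ := exists_continuous_zero_one_of_isClosed hUo.isClosed_compl htc
    (Set.disjoint_left.2 fun z hz hz' => hz (htU hz'))
  refine ⟨h, fun z => h2 z, Filter.mem_of_superset ht fun z hz => h1 hz, fun φ => ?_⟩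
  have key : ∀ z i j, i < j → j < N → (α ^ i) z ∈ U → (α ^ j) z ∈ U → False := by
    intro z i j hij hj hi1 hj1
    obtain ⟨d, rfl⟩ := Nat.exists_eq_add_of_lt hij
    have e : i + d + 1 = (d + 1) + i := by ring
    rw [e, FNU_add] at hj1
    rw [hUdef, Set.mem_iInter₂] at hi1 hj1
    have a1 := hi1 (d + 1) (Finset.mem_range.2 (by omega))
    have a2 := hj1 0 (Finset.mem_range.2 (by omega))
    have a3 : (α ^ (d + 1)) ((α ^ i) z) ∈ f ((α ^ (d + 1)) x) := a1
    have a4 : (α ^ (d + 1)) ((α ^ i) z) ∈ f ((α ^ 0) x) := a2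
    have hne : (α ^ (d + 1)) x ≠ (α ^ 0) x := hx' (d + 1) (Nat.succ_ne_zero d)
    have hdis := hf1 (Finset.mem_coe.2 (Finset.mem_image_of_mem (fun i => (α ^ i) x)
      (Finset.mem_range.2 (by omega : d + 1 < N)))) (Finset.mem_coe.2 (Finset.mem_image_of_mem
      (fun i => (α ^ i) x) (Finset.mem_range.2 (by omega : 0 < N)))) hne
    exact Set.disjoint_left.1 hdis a3 a4
  have hsum : ∀ z, (∑ i ∈ Finset.range N, h ((α ^ i) z)) ≤ 1 := by
    intro z
    by_cases hz : ∃ i ∈ Finset.range N, (α ^ i) z ∈ U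
    · obtain ⟨i, hi, hiU⟩ := hz
      rw [Finset.sum_eq_single i]
      · exact (h2 _).2
      · intro j hj hji
        apply h0
        intro hjU
        rcases lt_or_gt_of_ne hji with hlt | hlt
        · exact key z j i hlt (Finset.mem_range.1 hi) hjU hiU
        · exact key z i j hlt (Finset.mem_range.1 hj) hiU hjU
      · intro hn
        exact absurd hi hn
    · push Not at hz
      rw [Finset.sum_eq_zero]
      · exact zero_le_one
      · intro i hi
        exact h0 (hz i hi)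
  have h3 := φ.nonneg (1 - ∑ i ∈ Finset.range N, h.comp ((α ^ i : X ≃ₜ X) : C(X, X))) (by
    intro z
    rw [ContinuousMap.sub_apply, ContinuousMap.sum_apply]
    have := hsum z
    show 0 ≤ (1 : ℝ) - ∑ i ∈ Finset.range N, h ((α ^ i) z)
    linarith)
  rw [map_sub, map_sum, φ.one] at h3
  simp only [FNU_pow, Finset.sum_const, Finset.card_range, nsmul_eq_mul] at h3
  by_contra hlt
  push Not at hlt
  have : ε * N < φ.φ h * N := by
    exact mul_lt_mul_of_pos_right hlt hN0
  linarith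

end Pool.Agent.PV
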