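import Pool.Agent.helper53.PV.SpecD

set_option autoImplicit false

open scoped Topology
open MeasureTheory Filter

namespace Pool.Agent.PV

open Pool.Agent.CZ

theorem JCX_bd {X : Type} [TopologicalSpace X] {α : X ≃ₜ X} (φ : InvSt α) (h : C(X, ℝ)) (C : ℝ)
    (hC : ∀ x, |h x| ≤ C) : |φ.φ h| ≤ C := by
  have h1 := φ.nonneg (C • (1 : C(X, ℝ)) - h) (fun x => by
    show 0 ≤ C * (1 : ℝ) - h x
    have := (abs_le.1 (hC x)).2
    linarith)
  have h2 := φ.nonneg (C • (1 : C(X, ℝ)) + h) (fun x => by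
    show 0 ≤ C * (1 : ℝ) + h x
    have := (abs_le.1 (hC x)).1
    linarith)
  rw [map_sub, map_smul, φ.one, smul_eq_mul, mul_one] at h1
  rw [map_add, map_smul, φ.one, smul_eq_mul, mul_one] at h2
  rw [abs_le]
  constructor <;> linarith

theorem JCX_inv {X : Type} [TopologicalSpace X] {α : X ≃ₜ X} (φ : InvSt α) (n : ℤ) :
    ∀ g : C(X, ℝ), φ.φ (g.comp ((α ^ n : X ≃ₜ X) : C(X, X))) = φ.φ g := by
  induction n using Int.induction_on with
  | zero =>
    intro g
    have e : g.comp ((α ^ (0 : ℤ) : X ≃ₜ X) : C(X, X)) = g := by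
      ext z
      rfl
    rw [e]
  | succ n ih =>
    intro g
    have e : g.comp ((α ^ ((n : ℤ) + 1) : X ≃ₜ X) : C(X, X)) =
        (g.comp ((α ^ (n : ℤ) : X ≃ₜ X) : C(X, X))).comp (α : C(X, X)) := by
      ext z
      show g ((α ^ ((n : ℤ) + 1)) z) = g ((α ^ (n : ℤ)) (α z))
      rw [zpow_add_one]
      rfl
    rw [e, φ.inv, ih]
  | pred n ih =>
    intro g
    have e : (g.comp ((α ^ (-(n : ℤ) - 1) : X ≃ₜ X) : C(X, X))).comp (α : C(X, X)) =
        g.comp ((α ^ (-(n : ℤ)) : X ≃ₜ X) : C(X, X)) := by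
      ext z
      show g ((α ^ (-(n : ℤ) - 1)) (α z)) = g ((α ^ (-(n : ℤ))) z)
      rw [zpow_sub_one]
      show g ((α ^ (-(n : ℤ))) (α.symm (α z))) = g ((α ^ (-(n : ℤ))) z)
      rw [α.symm_apply_apply]
    rw [← φ.inv, e, ih]

theorem JCX : JCX_stmt := by
  intro X _ _ α φ
  refine ⟨fun f g => ?_, fun z f => ?_, ?_, fun f hf => ?_, fun n f => ?_, fun f => ?_,
    fun h => ?_⟩
  · have e1 : reC (f + g) = reC f + reC g := by
      ext x
      exact Complex.add_re _ _
    have e2 : imC (f + g) = imC f + imC g := by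
      ext x
      exact Complex.add_im _ _
    apply Complex.ext
    · show φ.φ (reC (f + g)) = φ.φ (reC f) + φ.φ (reC g)
      rw [e1, map_add]
    · show φ.φ (imC (f + g)) = φ.φ (imC f) + φ.φ (imC g)
      rw [e2, map_add]
  · have e1 : reC (z • f) = z.re • reC f - z.im • imC f := by
      ext x
      exact Complex.mul_re _ _
    have e2 : imC (z • f) = z.re • imC f + z.im • reC f := by
      ext x
      exact Complex.mul_im _ _
    apply Complex.ext
    · rw [Complex.mul_re]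
      show φ.φ (reC (z • f)) = z.re * φ.φ (reC f) - z.im * φ.φ (imC f)
      rw [e1, map_sub, map_smul, map_smul, smul_eq_mul, smul_eq_mul]
    · rw [Complex.mul_im]
      show φ.φ (imC (z • f)) = z.re * φ.φ (imC f) + z.im * φ.φ (reC f)
      rw [e2, map_add, map_smul, map_smul, smul_eq_mul, smul_eq_mul]
  · have e1 : reC (1 : C(X, ℂ)) = 1 := by
      ext x
      rfl
    have e2 : imC (1 : C(X, ℂ)) = 0 := by
      ext x
      rfl
    apply Complex.ext
    · show φ.φ (reC 1) = 1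
      rw [e1, φ.one]
    · show φ.φ (imC 1) = 0
      rw [e2, map_zero]
  · refine ⟨φ.nonneg _ fun x => (hf x).1, ?_⟩
    have e2 : imC f = 0 := by
      ext x
      exact (hf x).2
    show φ.φ (imC f) = 0
    rw [e2, map_zero]
  · apply Complex.ext
    · exact JCX_inv φ n (reC f)
    · exact JCX_inv φ n (imC f)
  · have h1 : |φ.φ (reC f)| ≤ ‖f‖ := JCX_bd φ _ _ fun x =>
      (Complex.abs_re_le_norm _).trans (ContinuousMap.norm_coe_le_norm f x)
    have h2 : |φ.φ (imC f)| ≤ ‖f‖ := JCX_bd φ _ _ fun x =>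
      (Complex.abs_im_le_norm _).trans (ContinuousMap.norm_coe_le_norm f x)
    calc ‖φ.cx f‖ ≤ |(φ.cx f).re| + |(φ.cx f).im| := Complex.norm_le_abs_re_add_abs_im _
      _ ≤ ‖f‖ + ‖f‖ := add_le_add h1 h2
      _ = 2 * ‖f‖ := by ring
  · have e1 : reC (rc h) = h := by
      ext x
      rfl
    have e2 : imC (rc h) = 0 := by
      ext x
      rfl
    apply Complex.ext
    · show φ.φ (reC (rc h)) = φ.φ h
      rw [e1]
    · show φ.φ (imC (rc h)) = 0
      rw [e2, map_zero]

end Pool.Agent.PV
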