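import Pool.Agent.helper77.PV.SpecK

set_option autoImplicit false

open scoped Matrix Topology
open Filter

namespace Pool.Agent.PV

open Pool.Agent.CZ Pool.Agent.PVH

theorem KM1_congr {A B : Type} [Ring A] [Ring B] [TopologicalSpace A] [TopologicalSpace B]
    {φ ψ : A →+* B} (hφ : Continuous φ) (hψ : Continuous ψ) (h : φ = ψ) (z : K1 A) :
    k1map φ hφ z = k1map ψ hψ z := by
  subst h
  rfl

theorem KM1 (hMS1 : MS1_stmt) (hFUN : FUN_stmt) : KM1_stmt := by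
  intro X₀ Y X _ _ _ _ _ _ α₀ α π e r hE h₀ h hj hr
  have hF := hFUN.2.2.2.2
  have hms := hMS1 ℤ C(X₀, ℂ) C(X, ℂ) C(Y, ℂ) (pbC ℂ π) e r hj hr hE.ms
  refine ⟨fun x => ?_, fun k s => ?_, hms.1, hms.2⟩
  · unfold k1a
    rw [← hF _ _ _ (pbC ℂ π).toRingHom (alC α : C(X, ℂ) →ₐ[ℂ] C(X, ℂ)).toRingHom hj h
      (h.comp hj), ← hF _ _ _ (alC α₀ : C(X₀, ℂ) →ₐ[ℂ] C(X₀, ℂ)).toRingHom (pbC ℂ π).toRingHom
      h₀ hj (hj.comp h₀)]
    refine KM1_congr _ _ ?_ x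
    ext f x
    show f (π (α.symm x)) = f (α₀.symm (π x))
    have h1 := hE.eqv (α.symm x)
    rw [α.apply_symm_apply] at h1
    rw [h1, α₀.symm_apply_apply]
  · unfold k1a
    rw [← hF _ _ _ (r k).toRingHom (alC α : C(X, ℂ) →ₐ[ℂ] C(X, ℂ)).toRingHom (hr k) h
      (h.comp (hr k))]
    refine KM1_congr _ _ ?_ s
    ext f x
    show (alC α (r k f)) x = (r (k - 1) f) x
    rw [hE.al]

end Pool.Agent.PV
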