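import Pool.Agent.helper77.PV.SpecB

set_option autoImplicit false

open scoped Matrix Topology
open Filter

namespace Pool.Agent.PV

open Pool.Agent.CZ

theorem T1C_entry {B A : Type} [NormedRing B] [NormedAlgebra ℂ B] [NormedRing A] [NormedAlgebra ℂ A]
    (al : B ≃ₐ[ℂ] B) (io : B →ₐ[ℂ] A) (u : Aˣ) (c : ℤ → A →ₗ[ℂ] B) (h : ZPair al io u c) (b : B) :
    (u : A) * io b * ((u⁻¹ : Aˣ) : A) = io (al b) := by
  rw [h.cov, mul_assoc, Units.mul_inv, mul_one]

theorem T1C (hK0G : K0G_stmt) (hK0E : K0E_stmt) (hK1G : K1G_stmt) (hK1M : K1M_stmt)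
    (hFUN : FUN_stmt) : T1C_stmt := by
  intro B A _ _ _ _ _ _ al io u c h
  refine ⟨fun z => ?_, fun ha hi z => ?_⟩
  · obtain ⟨n, m, e, he, rfl⟩ := hK0G B z
    have hm1 : e.map (al : B →ₐ[ℂ] B).toRingHom * e.map (al : B →ₐ[ℂ] B).toRingHom =
        e.map (al : B →ₐ[ℂ] B).toRingHom := by
      rw [← Matrix.map_mul, he]
    have hm2 : (e.map (al : B →ₐ[ℂ] B).toRingHom).map io.toRingHom *
        (e.map (al : B →ₐ[ℂ] B).toRingHom).map io.toRingHom =
        (e.map (al : B →ₐ[ℂ] B).toRingHom).map io.toRingHom := by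
      rw [← Matrix.map_mul, hm1]
    have hm3 : e.map io.toRingHom * e.map io.toRingHom = e.map io.toRingHom := by
      rw [← Matrix.map_mul, he]
    unfold k0a
    rw [map_sub, map_sub, map_sub, map_nsmul, map_nsmul, map_nsmul, hFUN.2.2.1, hFUN.2.2.1,
      k0map_k0 _ e he hm1, k0map_k0 _ _ hm1 hm2, k0map_k0 _ e he hm3]
    congr 1
    have hs : ∀ i j, ∑ k, io (e i k) * io (e k j) = io (e i j) := by
      intro i j
      have h1 := congrFun (congrFun hm3 i) j
      rw [Matrix.mul_apply] at h1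
      exact h1
    refine hK0E A (Fin n) (Fin n) _ _ hm2 hm3 (Matrix.of fun i j => (u : A) * io (e i j))
      (Matrix.of fun i j => io (e i j) * ((u⁻¹ : Aˣ) : A)) ?_ ?_
    · ext i j
      rw [Matrix.mul_apply]
      show ∑ k, ((u : A) * io (e i k)) * (io (e k j) * ((u⁻¹ : Aˣ) : A)) = io (al (e i j))
      rw [← T1C_entry al io u c h, ← hs i j, Finset.mul_sum, Finset.sum_mul]
      refine Finset.sum_congr rfl fun k _ => ?_
      simp only [mul_assoc]
    · ext i j
      rw [Matrix.mul_apply]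
      show ∑ k, (io (e i k) * ((u⁻¹ : Aˣ) : A)) * ((u : A) * io (e k j)) = io (e i j)
      rw [← hs i j]
      refine Finset.sum_congr rfl fun k _ => ?_
      rw [mul_assoc, ← mul_assoc ((u⁻¹ : Aˣ) : A), Units.inv_mul, one_mul]
  · obtain ⟨n, g, rfl⟩ := hK1G B z
    unfold k1a
    rw [k1map_k1, k1map_k1, k1map_k1]
    have hU : umap io.toRingHom (umap (al : B →ₐ[ℂ] B).toRingHom g) * uM (Fin n) u =
        uM (Fin n) u * umap io.toRingHom g := by
      apply Units.ext
      ext i j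
      show (((g : Matrix (Fin n) (Fin n) B).map (al : B →ₐ[ℂ] B).toRingHom).map io.toRingHom *
        Matrix.scalar (Fin n) (u : A)) i j = (Matrix.scalar (Fin n) (u : A) *
          (g : Matrix (Fin n) (Fin n) B).map io.toRingHom) i j
      rw [Matrix.scalar_apply, Matrix.mul_diagonal, Matrix.diagonal_mul]
      exact (h.cov _).symm
    have hV : umap io.toRingHom (umap (al : B →ₐ[ℂ] B).toRingHom g) =
        uM (Fin n) u * umap io.toRingHom g * (uM (Fin n) u)⁻¹ := eq_mul_inv_of_mul_eq hU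
    have k1 := (hK1M A (Fin n) (uM (Fin n) u * umap io.toRingHom g) (uM (Fin n) u)⁻¹).1
    have k2 := (hK1M A (Fin n) (uM (Fin n) u) (umap io.toRingHom g)).1
    have k3 := (hK1M A (Fin n) (uM (Fin n) u) (uM (Fin n) u)).2.1
    rw [hV, k1, k2, k3]
    abel

end Pool.Agent.PV
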